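import Pool.Agent.Y778.NK.KMS
import Pool.Agent.Y778.NK.Final
import Pool.Agent.Y43.NK.Int
import Pool.Agent.Y43.NK.Cyc
import Pool.Agent.Y43.NK.Artin
import Pool.Agent.Y785.NK.Comb
import Pool.Agent.Y350.NK.Gen
import Pool.Agent.Y44.NK.Pow

/-!
# MP_e40716_gt: the assembly map in degree `-1` is rationally injective for every group
-/

set_option autoImplicit false

namespace Pool.Agent.Results.MP_e40716_gt.DegreeMinusOne

open Pool.Agent.Y69 Pool.Agent.Y778.NK.KS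

theorem result (G : Type) [Group G] (P : Set Nat.Primes) :
    ∃ A : KMColim P G →+ KM P G,
      (∀ (H : FinSub G) (x : KF P H), A (KMColim.ι H x) = KF.incl H x) ∧
      ∀ x, (∃ n : ℕ, 0 < n ∧ n • A x = 0) → ∃ l : ℕ, 0 < l ∧ l • x = 0 :=
  ⟨Pool.Agent.Y778.NK.asKM P G, Pool.Agent.Y778.NK.asKM_ι, fun x ⟨n, hn, hx⟩ =>
    Pool.Agent.Y778.NK.main Pool.Agent.Y43.NK.artin Pool.Agent.Y350.NK.tors
      Pool.Agent.Y43.NK.int Pool.Agent.Y350.NK.gen Pool.Agent.Y44.NK.Pow.pow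
      (Pool.Agent.Y785.NK.comb Pool.Agent.Y43.NK.cyc) x n hn hx⟩

end Pool.Agent.Results.MP_e40716_gt.DegreeMinusOne
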