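import Pool.Agent.Y69.VN.Ri3

/-!
# The Dennis trace of the K-theory of integral group rings: no condition on the group

If the Farrell-Jones conjecture holds for `ℤ[Γ]`, then rationally all classes of `K_n(ℤ[Γ])`,
`n ≥ 1`, come from finite subgroups, and by Swan's theorem their Dennis traces in
`HH_n(ℚ[Γ]) = ⨁_{[u]} H_n(Z_Γ(u); ℚ)` (and in cyclic homology) live at the component of the
identity.  We prove this consequence under the condition of the theorems of Bass and Linnell on
`K_0`: at all `u` which are, for some prime `p`, not conjugate to one of the powers `u ^ (p ^ j)`,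
`j ≥ 1`; in particular at all elements `u ≠ 1` of finite order of all groups `Γ`.  It is proved for
all classes of `K_1(ℤ[Γ])` and, in all degrees, for the cocycles which are invariant under the
roots of `u` (for example those which are pulled back from a quotient of `Z_Γ(u)` in which the roots
of `u` are trivial, such as cup products of classes of degree one).

Let `z` be a cycle of degree `n + 1 ≥ 1` in the bar complex (coefficients `ℤ`) of the group of
invertible matrices over `R[Γ]`; every class of `K_{n+1}(R[Γ])` gives such a `z` by the Hurewicz map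
`K_{n+1}(R[Γ]) → H_{n+1}(GL(R[Γ]); ℤ)`.  `dennis f z` is the value of the Hochschild cocycle `f` on
the Dennis trace of `z`.
-/

set_option autoImplicit false

namespace Pool.Agent.Results.MP_e40716_gt.HigherBassLinnell

open Pool.Agent.W644.HK

universe u v w x

/-- The tuple `(y_n⁻¹ P y_0, y_0⁻¹ y_1, y_1⁻¹ y_2, …, y_{n-1}⁻¹ y_n)` read off from the points
`y_0, …, y_n` and `P` (the index `i - 1` is cyclic: `0 - 1 = n`).  Every tuple is of this form, its
product is `y_n⁻¹ P y_n`. -/
def pointWord {G : Type v} [Group G] {n : ℕ} (P : G) (y : Fin (n + 1) → G) : Fin (n + 1) → G :=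
  fun i => (y (i - 1))⁻¹ * (if i = 0 then P else 1) * y i

/-- The cochain `f` is root invariant: the homogeneous cochain
`(y_0, …, y_n) ↦ f (pointWord P y)` does not change if a single point `y_j` is replaced by `x y_j`,
where `x` is a root of `P`, that is `x ^ k = P` for some `k ≥ 1`. -/
def RootInvariant {G : Type v} [Group G] {V : Type x} {n : ℕ} (f : (Fin (n + 1) → G) → V) : Prop :=
  ∀ (P x : G) (k : ℕ), 0 < k → x ^ k = P → ∀ (y : Fin (n + 1) → G) (j : Fin (n + 1)),
    f (pointWord P (Function.update y j (x * y j))) = f (pointWord P y)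

/-- `q` is a prime number such that no nonzero element of `V` is divisible by all powers of `q`. -/
def Separated (V : Type x) [AddCommGroup V] (q : ℕ) : Prop :=
  q.Prime ∧ ∀ v : V, (∀ e : ℕ, ∃ v' : V, v = q ^ e • v') → v = 0

/-- `u` is not conjugate in `H` to one of the powers `u ^ (p ^ j)`, `j ≥ 1`. -/
def NotConjPow {G : Type v} [Group G] (u : G) (H : Subgroup G) (p : ℕ) : Prop :=
  ∀ j : ℕ, 1 ≤ j → ∀ a ∈ H, a * u * a⁻¹ ≠ u ^ p ^ j

lemma int_sep {p : ℕ} (hp : p.Prime) (v : ℤ) (hv : ∀ e : ℕ, ∃ v' : ℤ, v = p ^ e • v') : v = 0 := by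
  by_contra hv0
  obtain ⟨v', hv'⟩ := hv v.natAbs
  have h3 : (p : ℤ) ^ v.natAbs ∣ v := by
    refine ⟨v', ?_⟩
    have h6 : (p ^ v.natAbs : ℕ) • v' = (p : ℤ) ^ v.natAbs * v' := by simp
    rw [← h6]
    exact hv'
  have h4 := Int.natAbs_dvd_natAbs.2 h3
  rw [Int.natAbs_pow, Int.natAbs_natCast] at h4
  have h5 := Nat.le_of_dvd (Int.natAbs_pos.2 hv0) h4
  exact absurd h5 (not_le.2 (Nat.lt_pow_self hp.one_lt))

/-- elements of finite order are not conjugate to their `p ^ j`-th powers, if `p` divides the
order -/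
lemma notConjPow_of_dvd {G : Type v} [Group G] (u : G) (hu : IsOfFinOrder u) (H : Subgroup G)
    {p : ℕ} (hp : p.Prime) (hd : p ∣ orderOf u) : NotConjPow u H p := by
  intro j hj a _ h
  have h1 : orderOf (a * u * a⁻¹) = orderOf u :=
    orderOf_injective (MulAut.conj a).toMonoidHom (MulAut.conj a).injective u
  rw [h] at h1
  have h2 : p ∣ p ^ j := dvd_pow_self p (by omega)
  have h3 : (u ^ p ^ j) ^ (orderOf u / p) = 1 := by
    rw [← pow_mul]
    obtain ⟨t, ht⟩ := h2
    have h4 : p ^ j * (orderOf u / p) = orderOf u * t := by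
      have h5 : orderOf u = p * (orderOf u / p) := (Nat.mul_div_cancel' hd).symm
      calc p ^ j * (orderOf u / p) = p * (orderOf u / p) * t := by rw [ht]; ring
        _ = orderOf u * t := by rw [← h5]
    rw [h4, pow_mul, pow_orderOf_eq_one, one_pow]
  have h4 := orderOf_dvd_of_pow_eq_one h3
  rw [h1] at h4
  have hpos : 0 < orderOf u := hu.orderOf_pos
  have h5 : 0 < orderOf u / p := Nat.div_pos (Nat.le_of_dvd hpos hd) hp.pos
  have h6 := Nat.le_of_dvd h5 h4
  have h7 : orderOf u / p < orderOf u := Nat.div_lt_self hpos hp.one_lt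
  omega

/-- chains of degree one are cycles -/
lemma barBoundary_one {𝒢 : Type v} [Group 𝒢] (z : (Fin (0 + 1) → 𝒢) →₀ ℤ) : barBoundary z = 0 := by
  unfold barBoundary Finsupp.sum
  apply Finset.sum_eq_zero
  intro x _
  beta_reduce
  rw [Fin.sum_univ_one]
  have h : (fun i : Fin 0 => x i.succ) = Fin.contractNth 0 (· * ·) x := Subsingleton.elim _ _
  rw [h, ← Finsupp.single_add]
  simp

lemma prod_pointWord {G : Type v} [Group G] {n : ℕ} (P : G) (y : Fin (n + 1) → G) :
    (List.ofFn (pointWord P y)).prod = (y (Fin.last n))⁻¹ * P * y (Fin.last n) := by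
  have h1 : pointWord P y = lt (n := n) P (List.ofFn y) := by
    rw [Pool.Agent.Y69.VN.lt_eq_pointWord]
    have h2 : (fun i : Fin (n + 1) => (List.ofFn y).getD i 1) = y := by
      funext i
      rw [List.getD_eq_getElem _ _ (by rw [List.length_ofFn]; exact i.2), List.getElem_ofFn]
    rw [h2]
    rfl
  rw [h1, prod_lt]
  have h3 : (List.ofFn y).getD n 1 = y (Fin.last n) := by
    rw [List.getD_eq_getElem _ _ (by rw [List.length_ofFn]; omega), List.getElem_ofFn]
    rfl
  rw [h3]

/-- Let `Γ` be any group.

(1) Let `R` be a commutative ring, `V` an `R`-module, `z` a cycle of degree `n + 1` in the bar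
complex of the group of invertible `r × r` matrices over `R[Γ]` and `f` a root invariant Hochschild
`(n+1)`-cocycle on `Γ` with values in `V`, such that for every tuple with `f ≠ 0`, with product `u`,
and every finitely generated subgroup `H` which contains `u`, there is a prime `p` such that `V` is
`p`-adically separated and `u` is not conjugate in `H` to any `u ^ (p ^ j)`, `j ≥ 1`.  Then
`⟨f, D z⟩ = 0`.

(2) In degree one, for torsion-free `V`, it is enough that `f` is shift invariant at the elements
`P` of infinite order (and every chain `z` is a cycle, for example a single invertible matrix).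

(3) For `R = V = ℤ` and every group `Γ`: `⟨f, D z⟩ = 0` for all cocycles `f` which vanish unless the
product of the tuple is an element `≠ 1` of finite order, if `f` has degree one or is root
invariant. -/
theorem result (Γ : Type v) [Group Γ] (r : Type w) [Fintype r] [DecidableEq r] :
    (∀ (n : ℕ) (R : Type u) [CommRing R] (V : Type x) [AddCommGroup V] [Module R V],
      ∀ z : (Fin (n + 1) → (Matrix r r (MonoidAlgebra R Γ))ˣ) →₀ ℤ, barBoundary z = 0 →
      ∀ f : (Fin (n + 2) → Γ) → V, IsHochschildCocycle f → RootInvariant f →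
        (∀ g : Fin (n + 2) → Γ, f g ≠ 0 → ∀ H : Subgroup Γ, H.FG → (List.ofFn g).prod ∈ H →
          ∃ p : ℕ, Separated V p ∧ NotConjPow (List.ofFn g).prod H p) →
        dennis f z = 0) ∧
    (∀ (R : Type u) [CommRing R] (V : Type x) [AddCommGroup V] [Module R V],
      (∀ (a : ℕ) (v : V), 0 < a → a • v = 0 → v = 0) →
      ∀ z : (Fin 1 → (Matrix r r (MonoidAlgebra R Γ))ˣ) →₀ ℤ,
      ∀ f : (Fin 2 → Γ) → V, IsHochschildCocycle (n := 1) f →
        (∀ (P : Γ) (y : Fin 2 → Γ) (j : Fin 2), ¬ IsOfFinOrder P →
          f (pointWord P (Function.update y j (P * y j))) = f (pointWord P y)) →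
        (∀ g : Fin 2 → Γ, f g ≠ 0 → ∀ H : Subgroup Γ, H.FG → (List.ofFn g).prod ∈ H →
          ∃ p : ℕ, Separated V p ∧ NotConjPow (List.ofFn g).prod H p) →
        dennis (n := 1) f z = 0) ∧
    (∀ (n : ℕ) (z : (Fin (n + 1) → (Matrix r r (MonoidAlgebra ℤ Γ))ˣ) →₀ ℤ), barBoundary z = 0 →
      ∀ f : (Fin (n + 2) → Γ) → ℤ, IsHochschildCocycle f → (n = 0 ∨ RootInvariant f) →
        (∀ g : Fin (n + 2) → Γ, f g ≠ 0 →
          IsOfFinOrder (List.ofFn g).prod ∧ (List.ofFn g).prod ≠ 1) →
        dennis f z = 0) := by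
  refine ⟨fun n R _ V _ _ z hz f hf hri hsupp => ?_, fun R _ V _ _ htf z f hf hcyc hsupp => ?_,
    fun n z hz f hf hri hsupp => ?_⟩
  · refine Pool.Agent.Y69.VN.dennis_ri z hz f hf (Pool.Agent.Y69.VN.RIs_of f hri)
      fun g hg H hH hu => ?_
    obtain ⟨p, ⟨hp, hsep⟩, hconj⟩ := hsupp g hg H hH hu
    exact ⟨p, hp, hsep, hconj⟩
  · refine Pool.Agent.Y69.VN.dennis_ri (n := 0) z (barBoundary_one z) f hf
      (Pool.Agent.Y69.VN.RIs_of_one htf f hf hcyc) fun g hg H hH hu => ?_
    obtain ⟨p, ⟨hp, hsep⟩, hconj⟩ := hsupp g hg H hH hu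
    exact ⟨p, hp, hsep, hconj⟩
  · have hRIs : Pool.Agent.Y69.VN.RIs f := by
      rcases hri with rfl | hri
      · apply Pool.Agent.Y69.VN.RIs_of_one _ f hf
        · intro P y j hP
          have h0 : ∀ y : Fin 2 → Γ, f (pointWord P y) = 0 := by
            intro y
            by_contra hne
            have h1 := (hsupp _ hne).1
            rw [prod_pointWord] at h1
            apply hP
            obtain ⟨m, hm, hm1⟩ := isOfFinOrder_iff_pow_eq_one.1 h1
            refine isOfFinOrder_iff_pow_eq_one.2 ⟨m, hm, ?_⟩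
            have h3 := conj_pow (a := (y (Fin.last 1))⁻¹) (b := P) (i := m)
            rw [inv_inv] at h3
            rw [h3] at hm1
            have h4 : P ^ m = y (Fin.last 1) *
                ((y (Fin.last 1))⁻¹ * P ^ m * y (Fin.last 1)) * (y (Fin.last 1))⁻¹ := by group
            rw [h4, hm1]
            group
          exact (h0 _).trans (h0 _).symm
        · intro a v ha hav
          have h2 : (a : ℤ) * v = 0 := by rw [← hav]; simp
          rcases mul_eq_zero.1 h2 with h3 | h3
          · exact absurd (by exact_mod_cast h3) ha.ne'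
          · exact h3
      · exact Pool.Agent.Y69.VN.RIs_of f hri
    refine Pool.Agent.Y69.VN.dennis_ri z hz f hf hRIs fun g hg H hH hu => ?_
    obtain ⟨hfin, hne⟩ := hsupp g hg
    have hord : orderOf (List.ofFn g).prod ≠ 1 := fun h => hne (orderOf_eq_one_iff.1 h)
    obtain ⟨p, hp, hpd⟩ := Nat.exists_prime_and_dvd hord
    exact ⟨p, hp, fun v hv => int_sep hp v hv, notConjPow_of_dvd _ hfin H hp hpd⟩

end Pool.Agent.Results.MP_e40716_gt.HigherBassLinnell
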