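import Pool.Agent.Y69.VN.Kmap

/-!
# The `K_{-1}`-part of the assembly map in all degrees

Let `G` be a group, `C` a finite commutative subgroup with centralizer `Z`, `F` an idempotent matrix
over `ℚ_p[C]` and `x` a cycle of degree `n + 1` in the bar complex of `Z`.  We write `[F] · x` for
the image of `x` under the representation `h ↦ h F + (1 - F)` of `Z`; it is a cycle of degree
`n + 1` in the bar complex of `GL_r(ℚ_p[G])`.

The localization square of `ℤ[G]`, `ℤ[1/m][G]`, `ℤ_p[G]`, `ℚ_p[G]` (`p ∣ m`) gives boundary maps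
`K_{n+1}(ℚ_p[G]) → K_n(ℤ[G])`, and the part `H_{n+1}(Z; ℚ) ⊗ K_{-1}(ℤ[C])` of the source of the
rational assembly map consists of the classes `∑_p ∑_j ∂([F_j] · x_j)`.  (Under the Hurewicz map
the product of `[F]` with a class of `H_{n+1}(Z; ℚ)` represented by `x` is a rational combination
of the classes of the cycles `[F ⊕ ⋯ ⊕ F] · x`, as it is the primitive part of `[F] · x`.)  Such a
class vanishes in `K_n(ℤ[G]) ⊗ ℚ` only if, after multiplication by a positive integer, the sum is
of the form `z + z'_p` in `K_{n+1}(ℚ_p[G])` for all `p ∣ m`, with `z` over `ℤ[1/m][G]` and `z'_p`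
over `ℤ_p[G]`.  The theorem `result` says what such a relation implies: all values of cocycles `f`
on the Galois conjugates of the sums agree.  If the classes of `H_{n+1}(Z; ℚ)` are
detected by integral cocycles this says exactly that the class in `K_{-1}(ℤ[C]) ⊗ H_{n+1}(Z; ℚ)`
(coinvariants of the normalizer of the cyclic group `C`) is zero.
-/

set_option autoImplicit false
set_option linter.unusedSectionVars false

namespace Pool.Agent.Results.MP_e40716_gt.KMinusOneAllDegrees

open Pool.Agent.W644.HK Pool.Agent.Y69.VN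

universe u v w x

/-- The change of coefficients `φ : A → K` on chains of invertible matrices over group rings. -/
noncomputable def baseChain {A : Type x} [CommRing A] {K : Type u} [CommRing K] {G : Type v}
    [Group G] {r : Type w} [Fintype r] [DecidableEq r] (φ : A →+* K) {n : ℕ}
    (z : (Fin n → (Matrix r r (MonoidAlgebra A G))ˣ) →₀ ℤ) :
    (Fin n → (Matrix r r (MonoidAlgebra K G))ˣ) →₀ ℤ :=
  z.mapDomain fun g i =>
    Units.map (((MonoidAlgebra.mapRingHom G φ).mapMatrix (m := r)).toMonoidHom) (g i)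

/-- A class `[F] · x`: a finite commutative subgroup `C` of `G`, an idempotent matrix `F` over the
group algebra `K[C]` and a cycle `x` of degree `n + 1` in the bar complex of the centralizer of `C`
in `G`. -/
structure Datum (K : Type u) [CommRing K] (G : Type v) [Group G] (r : Type w) [Fintype r]
    [DecidableEq r] (n : ℕ) where
  /-- the subgroup -/
  C : Subgroup G
  finite : Finite C
  comm : IsMulCommutative C
  /-- the idempotent -/
  F : Matrix r r (MonoidAlgebra K C)
  idem : F * F = F
  /-- the cycle -/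
  x : (Fin (n + 1) → Subgroup.centralizer (C : Set G)) →₀ ℤ
  cycle : barBoundary x = 0

namespace Datum

variable {K : Type u} [CommRing K] {G : Type v} [Group G] {r : Type w} [Fintype r]
  [DecidableEq r] {n : ℕ} (D : Datum K G r n)

instance : Finite D.C := D.finite

instance : IsMulCommutative D.C := D.comm

/-- the idempotent matrix `F` over `K[G]` -/
noncomputable def FG : Matrix r r (MonoidAlgebra K G) :=
  D.F.map (MonoidAlgebra.mapDomainRingHom K D.C.subtype)

/-- the matrix `h F + (1 - F)` over `K[G]` -/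
noncomputable def mat (h : G) : Matrix r r (MonoidAlgebra K G) :=
  Matrix.scalar r (MonoidAlgebra.single h (1 : K)) * D.FG + (1 - D.FG)

/-- the homomorphism `(c, h) ↦ c h` -/
noncomputable def mulHom : D.C × Subgroup.centralizer (D.C : Set G) →* G :=
  MonoidHom.noncommCoprod D.C.subtype (Subgroup.centralizer (D.C : Set G)).subtype
    fun c h => (Subgroup.mem_centralizer_iff.1 h.2 c c.2)

lemma mulHom_apply (c : D.C) (h : Subgroup.centralizer (D.C : Set G)) :
    D.mulHom (c, h) = c * h := rfl

lemma mat_eq (h : Subgroup.centralizer (D.C : Set G)) :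
    D.mat h = ThM (H := D.C × Subgroup.centralizer (D.C : Set G)) r (RingHom.id K) D.mulHom
      (rvHom (Z := Subgroup.centralizer (D.C : Set G)) D.F D.idem h) := by
  rw [ThM_rv D.mulHom D.F D.idem h, tw, mulHom_apply, mat, FG]
  have h1 : D.mulHom.comp (MonoidHom.inl D.C (Subgroup.centralizer (D.C : Set G))) =
      D.C.subtype := by
    ext c
    show D.mulHom (c, 1) = c
    rw [mulHom_apply]
    simp
  rw [h1]
  simp

/-- the representation `h ↦ h F + (1 - F)` of the centralizer of `C` -/
noncomputable def rep : Subgroup.centralizer (D.C : Set G) →* (Matrix r r (MonoidAlgebra K G))ˣ :=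
  MonoidHom.toHomUnits
    { toFun := fun h => D.mat h
      map_one' := by rw [mat_eq, map_one, map_one]
      map_mul' := fun a b => by rw [mat_eq, mat_eq, mat_eq, map_mul, map_mul] }

lemma rep_apply (h : Subgroup.centralizer (D.C : Set G)) :
    (D.rep h : Matrix r r (MonoidAlgebra K G)) = D.mat h := rfl

/-- the cycle `[F] · x` of invertible matrices over `K[G]`: the image of `x` under the
representation `h ↦ h F + (1 - F)` -/
noncomputable def chain : (Fin (n + 1) → (Matrix r r (MonoidAlgebra K G))ˣ) →₀ ℤ :=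
  D.x.mapDomain fun h i => D.rep (h i)

/-- the value of a cochain `f` on the class `[a] · x` for an element `a` commuting with the entries
of `x`: the sum `∑ x(h) f(a (h_0 ⋯ h_n)⁻¹, h_0, …, h_n)` over the simplices `h` -/
def pair (f : (Fin (n + 2) → G) → ℤ) (a : G) : ℤ :=
  D.x.sum fun h y =>
    y * f (Fin.cons (a * (List.ofFn fun i => (h i : G)).prod⁻¹) fun i => (h i : G))

open Classical in
/-- the sum `∑_c tr(F)(c) f([c ^ t] · x)` over all `c` in `C` with `c ^ m = 1`, where `tr(F)(c)` is
the coefficient at `c` of the trace of `F` -/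
noncomputable def value (f : (Fin (n + 2) → G) → ℤ) (m t : ℕ) : K :=
  D.F.trace.coeff.sum fun c a => if c ^ m = 1 then a * (D.pair f ((c : G) ^ t) : K) else 0

lemma value_eq (hK : ∀ (a : ℕ) (v : K), 0 < a → a • v = 0 → v = 0)
    (f : (Fin (n + 2) → G) → ℤ) (hf : IsHochschildCocycle f) (m t : ℕ) :
    TF (cst K (cpow m t (cf f))) D.chain = D.value f m t := by
  classical
  have : Fintype D.C := Fintype.ofFinite _
  have h1 := chain_val (Z := Subgroup.centralizer (D.C : Set G)) D.mulHom D.F D.idem
    (fun v hv => hK _ v Fintype.card_pos hv) (cpow m t (cf f)) (Fam.cpow (fam_cf f hf) m t) D.x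
    D.cycle D.rep (fun h => D.mat_eq h)
  refine Eq.trans h1 ?_
  rw [LL_apply, value]
  apply Finsupp.sum_congr
  intro γ _
  have hj : D.mulHom (γ, 1) = γ := by
    rw [mulHom_apply]
    simp
  by_cases hγ : γ ^ m = 1
  · rw [if_pos hγ]
    have hγ' : (γ : G) ^ m = 1 := by
      rw [← Subgroup.coe_pow, hγ, Subgroup.coe_one]
    rw [smul_eq_mul]
    congr 1
    rw [pair, Finsupp.sum, Int.cast_sum]
    apply Finset.sum_congr rfl
    intro h _
    rw [zsmul_eq_mul, Int.cast_mul]
    congr 1
    unfold cst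
    rw [hj, cpow, if_pos hγ', cf_point D.mulHom f h ((γ : G) ^ t) ?_]
    · congr 2
      simp only [mulHom_apply, Subgroup.coe_one, one_mul]
    · intro b
      rw [mulHom_apply, Subgroup.coe_one, one_mul]
      exact Commute.pow_left (Subgroup.mem_centralizer_iff.1 b.2 γ γ.2) t
  · rw [if_neg hγ]
    have hγ' : ¬ (γ : G) ^ m = 1 := by
      rw [← Subgroup.coe_pow]
      intro h0
      exact hγ (Subtype.ext h0)
    have h2 : ∑ h ∈ D.x.support, D.x h • cst K (cpow m t (cf f)) (D.mulHom (γ, 1))
        ((pts 1 (inr D.C (cl (List.ofFn h)))).map D.mulHom) = 0 := by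
      apply Finset.sum_eq_zero
      intro h _
      unfold cst
      rw [hj, cpow, if_neg hγ', Int.cast_zero, smul_zero]
    rw [h2, smul_zero]

end Datum

section main

lemma baseChain_eq {A : Type x} [CommRing A] {K : Type u} [CommRing K] {G : Type v} [Group G]
    {r : Type w} [Fintype r] [DecidableEq r] (φ : A →+* K) {n : ℕ}
    (z : (Fin n → (Matrix r r (MonoidAlgebra A G))ˣ) →₀ ℤ) :
    baseChain φ z = z.mapDomain fun g i => GLm φ (g i) := by
  have h1 : Th φ (MonoidHom.id G) = MonoidAlgebra.mapRingHom G φ := by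
    apply RingHom.ext
    intro a
    induction a using MonoidAlgebra.induction_linear with
    | zero => simp
    | add a b ha hb => rw [map_add, map_add, ha, hb]
    | single g c => simp
  unfold baseChain GLm ThM
  rw [h1]

lemma TF_baseChain {A : Type x} [CommRing A] {K : Type u} [CommRing K] {G : Type v} [Group G]
    {r : Type w} [Fintype r] [DecidableEq r] (φ : A →+* K) (c : G → List G → ℤ) {n : ℕ}
    (z : (Fin n → (Matrix r r (MonoidAlgebra A G))ˣ) →₀ ℤ) :
    TF (cst K c) (baseChain φ z) = φ (TF (cst A c) z) := by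
  rw [baseChain_eq]
  exact TF_map φ c z

variable {G : Type u} [Group G] {r : Type v} [Fintype r] [DecidableEq r] {n m : ℕ}

lemma cpow_supp (hm : 0 < m) (f : (Fin (n + 2) → G) → ℤ)
    (hsupp : ∀ g : Fin (n + 2) → G, f g ≠ 0 → (List.ofFn g).prod ^ m = 1 ∧
      ∀ p : ℕ, p.Prime → p ∣ m → ∀ H : Subgroup G, H.FG →
        ∃ h : ℕ, ∀ a ∈ H, Subgroup.zpowers (a ^ p ^ h) ≠ Subgroup.zpowers (List.ofFn g).prod)
    (p : ℕ) (hp : p.Prime) (hpm : p ∣ m) (t : ℕ) (ht : t.Coprime m) (P : G) (l : List G)
    (h : cpow m t (cf f) P l ≠ 0) :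
    IsOfFinOrder P ∧ ∀ H : Subgroup G, H.FG → ∃ h : ℕ, ∀ a ∈ H, a ^ p ^ h ≠ P := by
  have hP : P ^ m = 1 := by
    by_contra h0
    apply h
    rw [cpow, if_neg h0]
  have h1 : cf f (P ^ t) l ≠ 0 := by
    rwa [cpow, if_pos hP] at h
  have hlen : l.length = n + 2 := by
    by_contra hne
    exact h1 (cf_of_length_ne f _ l hne)
  rw [cf_of_length f _ l hlen] at h1
  obtain ⟨_, h2⟩ := hsupp _ h1
  rw [prod_lt] at h2
  refine ⟨isOfFinOrder_iff_pow_eq_one.2 ⟨m, hm, hP⟩, fun H hH => ?_⟩
  set y := l.getD (n + 1) 1 with hy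
  obtain ⟨h, hh⟩ := h2 p hp hpm (H.map (MulAut.conj y⁻¹).toMonoidHom) (fg_conj H hH y⁻¹)
  refine ⟨h, fun a ha hP' => ?_⟩
  apply hh (y⁻¹ * a * y)
  · refine ⟨a, ha, ?_⟩
    show y⁻¹ * a * y⁻¹⁻¹ = y⁻¹ * a * y
    rw [inv_inv]
  · have h3 : (y⁻¹ * a * y) ^ p ^ h = y⁻¹ * P * y := by
      have := conj_pow (a := y⁻¹) (b := a) (i := p ^ h)
      rw [inv_inv] at this
      rw [this, hP']
    have h4 : (y⁻¹ * P * y) ^ t = y⁻¹ * P ^ t * y := by
      have := conj_pow (a := y⁻¹) (b := P) (i := t)
      rwa [inv_inv] at this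
    have h5 : (y⁻¹ * P * y) ^ m = 1 := by
      have := conj_pow (a := y⁻¹) (b := P) (i := m)
      rw [inv_inv] at this
      rw [this, hP]
      group
    rw [h3, ← h4]
    exact (zpowers_pow_coprime _ m t h5 ht).symm

/-- **Rational injectivity of the `K_{-1}`-part of the assembly map, in all degrees.**  Let `m` be a
positive integer.  For every prime `p ∣ m` let a finite family of classes `[F] · x` over `ℚ_p[G]` be
given.  Suppose that there is a cycle `z` over `ℚ[G]` such that for every prime `p ∣ m` the sum of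
the family is, up to a boundary, the sum of `z` and of a cycle over `ℤ_p[G]`.  Let `f` be a
Hochschild cocycle on `G` with integral values which is supported on elements `P` with `P ^ m = 1`
such that for all primes `p ∣ m` no finitely generated subgroup contains generators of `⟨P⟩` which
are `p ^ h`-th powers for all `h`.  Then the value of `f` on the `t`-th conjugate of the sum of the
family is the same rational number for all primes `p ∣ m` and all `t` prime to `m`. -/
theorem result (hm : 0 < m) {J : ℕ → Type w} [∀ p, Fintype (J p)]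
    (D : ∀ (p : ℕ) [Fact p.Prime], J p → Datum ℚ_[p] G r n)
    (z : (Fin (n + 1) → (Matrix r r (MonoidAlgebra ℚ G))ˣ) →₀ ℤ) (hz : barBoundary z = 0)
    (hrel : ∀ (p : ℕ) [Fact p.Prime], p ∣ m →
      ∃ (z' : (Fin (n + 1) → (Matrix r r (MonoidAlgebra ℤ_[p] G))ˣ) →₀ ℤ)
        (w : (Fin (n + 2) → (Matrix r r (MonoidAlgebra ℚ_[p] G))ˣ) →₀ ℤ),
        barBoundary z' = 0 ∧
        ∑ j, (D p j).chain = baseChain (algebraMap ℚ ℚ_[p]) z +
          baseChain (algebraMap ℤ_[p] ℚ_[p]) z' + barBoundary w)
    (f : (Fin (n + 2) → G) → ℤ) (hf : IsHochschildCocycle f)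
    (hsupp : ∀ g : Fin (n + 2) → G, f g ≠ 0 → (List.ofFn g).prod ^ m = 1 ∧
      ∀ p : ℕ, p.Prime → p ∣ m → ∀ H : Subgroup G, H.FG →
        ∃ h : ℕ, ∀ a ∈ H, Subgroup.zpowers (a ^ p ^ h) ≠ Subgroup.zpowers (List.ofFn g).prod) :
    ∃ q : ℚ, ∀ (p : ℕ) [Fact p.Prime], p ∣ m → ∀ t : ℕ, t.Coprime m →
      ∑ j, (D p j).value f m t = ((q : ℚ) : ℚ_[p]) := by
  have hc : Fam (n + 1) (cf f) := fam_cf f hf
  refine ⟨TF (cst ℚ (cf f)) z, ?_⟩
  intro p hp hpm t ht
  obtain ⟨z', w, hz', hrel'⟩ := hrel p hpm
  have hct : Fam (n + 1) (cpow m t (cf f)) := Fam.cpow hc m t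
  have hcm : ∀ g l, cf f g l ≠ 0 → g ^ m = 1 := by
    intro g l h
    have hlen : l.length = n + 2 := by
      by_contra hne
      exact h (cf_of_length_ne f _ l hne)
    rw [cf_of_length f _ l hlen] at h
    have h1 := (hsupp _ h).1
    rw [prod_lt] at h1
    have := conj_pow_one (m := m) (l.getD (n + 1) 1)⁻¹ g
    rw [inv_inv] at this
    exact this.1 h1
  have h1 : ∑ j, (D p j).value f m t = TF (cst ℚ_[p] (cpow m t (cf f))) (∑ j, (D p j).chain) := by
    rw [TF_sum]
    apply Finset.sum_congr rfl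
    intro j _
    rw [Datum.value_eq (D p j) (fun a v ha hv => ?_) f hf m t]
    rw [nsmul_eq_mul] at hv
    rcases mul_eq_zero.1 hv with h | h
    · exact absurd (Nat.cast_eq_zero.1 h) ha.ne'
    · exact h
  rw [h1, hrel', TF_add, TF_add, TF_baseChain, TF_baseChain,
    vanish_loc (padic_tf p) z' hz' (cpow m t (cf f)) hct ?_, TF_bd _ (Fam.cst hct ℚ_[p]) w,
    map_zero, add_zero, add_zero, ← gal_rat z hz hm ht (cf f) hc hcm]
  · rfl
  · intro P l h
    obtain ⟨h2, h3⟩ := cpow_supp hm f hsupp p hp.out hpm t ht P l h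
    exact ⟨h2, fun H hH => ⟨p, hp.out, padic_sep p, h3 H hH⟩⟩

end main

end Pool.Agent.Results.MP_e40716_gt.KMinusOneAllDegrees
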