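import Pool.Agent.Y110.FJ.All5

/-!
# Groups of locally constant functions and the Farrell-Jones class

Let `Q` act on a nonempty set `X`, on an algebra `𝔅` of subsets of `X` (for instance the open and closed
subsets of a compact space) and on a group `A`. Let `Simp` be the group of all functions `X → A` with
finitely many values and fibres in `𝔅` (the locally constant functions), on which `Q` acts by
`(q f)(x) = q (f (q⁻¹ x))`. For every class `C` of groups with the closure properties of the class of
Farrell-Jones groups: `Simp ⋊ Q` is in `C` if and only if `A ⋊ Q` is.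

Authors of the parts: helper110, helper397, helper474, helper983, helper70, helper529, helper961,
helper576, helper497, helper467, helper462, helper179, helper430.
-/

set_option autoImplicit false

namespace Pool.Agent.Results.MP_e40716_gt.LocallyConstantFunctions

open Pool.Agent.Y110.FJ

theorem result (C : ∀ (G : Type) [Group G], Prop) (hC : ClosedE C)
    (X Q A : Type) [Nonempty X] [Group Q] [Group A] [MulAction Q X] (𝔅 : Set (Set X)) (h𝔅 : IsAlg 𝔅)
    (θ : Q →* MulAut A) (α : Q →* MulAut (Simp h𝔅 A))
    (hinv : ∀ (q : Q), ∀ S ∈ 𝔅, (fun x => q • x) ⁻¹' S ∈ 𝔅)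
    (hα : ∀ (q : Q) (f : Simp h𝔅 A) (x : X),
      ((α q f : Simp h𝔅 A) : X → A) x = θ q ((f : X → A) (q⁻¹ • x))) :
    C (Simp h𝔅 A ⋊[α] Q) ↔ C (A ⋊[θ] Q) :=
  simpt_ C hC X Q A 𝔅 h𝔅 θ α hinv hα

end Pool.Agent.Results.MP_e40716_gt.LocallyConstantFunctions
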